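import Mathlib

set_option autoImplicit false

namespace Pool.Agent.Results.MP_5cfb27_co.Bound

open Finset

/-- o c d h is the pair of equilibrium totals from heap h when the mover has convention c and the
other player convention d; true is friendly, false is antagonistic -/
def IsOutcome (S : Finset ℕ) (o : Bool → Bool → ℕ → ℕ × ℕ) : Prop :=
  ∀ c d h, ((∀ s ∈ S, h < s) → o c d h = (0, 0)) ∧
    ((∃ s ∈ S, s ≤ h) →
      (∃ s ∈ S, s ≤ h ∧ o c d h = (s + (o d c (h - s)).2, (o d c (h - s)).1)) ∧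
      ∀ t ∈ S, t ≤ h → t + (o d c (h - t)).2 < (o c d h).1 ∨
        (t + (o d c (h - t)).2 = (o c d h).1 ∧
          if c then (o d c (h - t)).1 ≤ (o c d h).2 else (o c d h).2 ≤ (o d c (h - t)).1))

def Good (c : Bool) (x y : ℕ × ℕ) : Prop :=
  y.1 < x.1 ∨ (y.1 = x.1 ∧ if c then y.2 ≤ x.2 else x.2 ≤ y.2)

lemma best {α : Type} (c : Bool) (T : Finset α) (hT : T.Nonempty) (f : α → ℕ × ℕ) :
    ∃ s ∈ T, ∀ t ∈ T, Good c (f s) (f t) := by
  cases c
  · obtain ⟨s, hs, h⟩ := exists_max_image T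
      (fun t => toLex ((f t).1, OrderDual.toDual (f t).2)) hT
    exact ⟨s, hs, fun t ht => by simpa [Good, Prod.Lex.toLex_le_toLex] using h t ht⟩
  · obtain ⟨s, hs, h⟩ := exists_max_image T (fun t => toLex (f t)) hT
    exact ⟨s, hs, fun t ht => by simpa [Good, Prod.Lex.toLex_le_toLex] using h t ht⟩

noncomputable def nxt (S : Finset ℕ) (c : Bool) (h : ℕ) (g : ℕ → ℕ × ℕ) : ℕ × ℕ :=
  if hT : (S.filter (· ≤ h)).Nonempty then g (best c _ hT g).choose else (0, 0)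

noncomputable def oo (S : Finset ℕ) (h : ℕ) : Bool → Bool → ℕ × ℕ := fun c d =>
  nxt S c h fun s => if hs : 0 < s ∧ s ≤ h then
    (s + (oo S (h - s) d c).2, (oo S (h - s) d c).1) else (0, 0)
termination_by h
decreasing_by all_goals omega

lemma ex (S : Finset ℕ) (h0 : 0 ∉ S) : IsOutcome S fun c d h => oo S h c d := by
  intro c d h
  have hp : ∀ s ∈ S, 0 < s := fun s hs => Nat.pos_of_ne_zero fun e => h0 (e ▸ hs)
  constructor
  · intro hh
    show oo S h c d = _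
    rw [oo, nxt, dif_neg]
    rintro ⟨s, hs⟩
    obtain ⟨a, b⟩ := mem_filter.1 hs
    exact absurd (hh s a) (by omega)
  · rintro ⟨s, hs, hsh⟩
    have hT : (S.filter (· ≤ h)).Nonempty := ⟨s, mem_filter.2 ⟨hs, hsh⟩⟩
    obtain ⟨g, hg⟩ : ∃ g : ℕ → ℕ × ℕ, g = fun s => if hs : 0 < s ∧ s ≤ h then
      (s + (oo S (h - s) d c).2, (oo S (h - s) d c).1) else (0, 0) := ⟨_, rfl⟩
    have e : oo S h c d = g (best c _ hT g).choose := by rw [oo, nxt, dif_pos hT, hg]
    have hg' : ∀ t ∈ S, t ≤ h → g t = (t + (oo S (h - t) d c).2, (oo S (h - t) d c).1) :=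
      fun t ht hth => by rw [hg]; exact dif_pos ⟨hp t ht, hth⟩
    obtain ⟨a, b⟩ := (best c _ hT g).choose_spec
    obtain ⟨a1, a2⟩ := mem_filter.1 a
    refine ⟨⟨_, a1, a2, e.trans (hg' _ a1 a2)⟩, fun t ht hth => ?_⟩
    have := b t (mem_filter.2 ⟨ht, hth⟩)
    rw [← e, hg' t ht hth] at this
    exact this

lemma tot {S : Finset ℕ} (h0 : 0 ∉ S) {o : Bool → Bool → ℕ → ℕ × ℕ} (ho : IsOutcome S o) (h : ℕ) :
    ∀ c d, (o c d h).1 + (o c d h).2 ≤ h := by
  induction h using Nat.strong_induction_on with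
  | _ h ih =>
  intro c d
  by_cases hh : ∃ s ∈ S, s ≤ h
  · obtain ⟨s, hs, hsh, e⟩ := ((ho c d h).2 hh).1
    have : 0 < s := Nat.pos_of_ne_zero fun e => h0 (e ▸ hs)
    have := ih (h - s) (by omega) d c
    rw [e]; simp only; omega
  · push Not at hh
    rw [(ho c d h).1 hh]; simp

lemma cross {S : Finset ℕ} (h0 : 0 ∉ S) {m : ℕ} (hm : m ∈ S) {o : Bool → Bool → ℕ → ℕ × ℕ}
    (ho : IsOutcome S o) (h : ℕ) : ∀ c d c' d', h < (o c d h).1 + (o c' d' h).2 + m := by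
  induction h using Nat.strong_induction_on with
  | _ h ih =>
  intro c d c' d'
  by_cases hh : ∃ s ∈ S, s ≤ h
  · obtain ⟨s, hs, hsh, e⟩ := ((ho c' d' h).2 hh).1
    have h1 : 0 < s := Nat.pos_of_ne_zero fun e => h0 (e ▸ hs)
    have h2 := ih (h - s) (by omega) d' c' d c
    have h3 := ((ho c d h).2 hh).2 s hs hsh
    rw [e]; simp only; omega
  · push Not at hh
    have := hh m hm
    omega

theorem result (S : Finset ℕ) (h0 : 0 ∉ S) (hS : S.Nonempty) :
    (∃ o, IsOutcome S o) ∧ ∀ o, IsOutcome S o → ∀ (c d c' d' : Bool) (h : ℕ),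
      |((o c' d' h).1 : ℤ) - (o c d h).1| < S.min' hS ∧
      |((o c' d' h).2 : ℤ) - (o c d h).2| < S.min' hS := by
  refine ⟨⟨_, ex S h0⟩, fun o ho c d c' d' h => ?_⟩
  have a1 := tot h0 ho h c d
  have a2 := tot h0 ho h c' d'
  have a3 := cross h0 (min'_mem S hS) ho h c d c' d'
  have a4 := cross h0 (min'_mem S hS) ho h c' d' c d
  simp only [abs_lt]
  omega

end Pool.Agent.Results.MP_5cfb27_co.Bound
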